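import Pool.Agent.H47.ML.Mo5

/-!
# The number of components of a random meandric system: central limit theorem with linear
centring, convergence of all moments, growth of the variance
-/

set_option autoImplicit false

namespace Pool.Agent.Results.MP_b7689d_pr.AllMoments

open Filter Topology MeasureTheory ProbabilityTheory

/-- `σ` is an arc system of size `n`: a non-crossing perfect matching of `2 n` points on the line,
that is an involution without fixed point (the partner of `i` is `σ i`) with no
`i < k < σ i < σ k`. -/
def IsMatching (n : ℕ) (σ : Fin (2 * n) → Fin (2 * n)) : Prop :=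
  (∀ i, σ (σ i) = i) ∧ (∀ i, σ i ≠ i) ∧ ∀ i k, ¬ (i < k ∧ k < σ i ∧ σ i < σ k)

open Classical in
/-- The meandric systems of size `n`. -/
noncomputable def systems (n : ℕ) :
    Finset ((Fin (2 * n) → Fin (2 * n)) × (Fin (2 * n) → Fin (2 * n))) :=
  Finset.univ.filter fun p => IsMatching n p.1 ∧ IsMatching n p.2

/-- The number of components: the closed curves are the classes of the equivalence relation on the
points which is generated by the arcs of both matchings. -/
noncomputable def components (n : ℕ)
    (p : (Fin (2 * n) → Fin (2 * n)) × (Fin (2 * n) → Fin (2 * n))) : ℕ :=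
  Nat.card (Quot fun i j : Fin (2 * n) => p.1 i = j ∨ p.2 i = j)

/-- The mean of the number of components of a uniformly random meandric system of size `n`. -/
noncomputable def mean (n : ℕ) : ℝ :=
  (∑ p ∈ systems n, (components n p : ℝ)) / ((systems n).card : ℝ)

/-- The variance of the number of components of a uniformly random meandric system. -/
noncomputable def variance (n : ℕ) : ℝ :=
  (∑ p ∈ systems n, ((components n p : ℝ) - mean n) ^ 2) / ((systems n).card : ℝ)

open Classical in
/-- The distribution function of the number of components, centred at `a` and divided by the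
standard deviation. -/
noncomputable def distr (a : ℝ) (n : ℕ) (x : ℝ) : ℝ :=
  (((systems n).filter fun p => ((components n p : ℝ) - a) / √(variance n) ≤ x).card : ℝ) /
    ((systems n).card : ℝ)

/-- The `k`-th moment of the number of components, centred at `a` and divided by the standard
deviation. -/
noncomputable def moment (a : ℝ) (n k : ℕ) : ℝ :=
  (∑ p ∈ systems n, (((components n p : ℝ) - a) / √(variance n)) ^ k) / ((systems n).card : ℝ)

/-- **Central limit theorem with linear centring and convergence of all moments.** There is a
constant `κ > 0` such that the number of components of a uniformly random meandric system of size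
`n`, centred at `κ n` and divided by its standard deviation, converges in distribution and with all
moments to the standard normal law. The same holds for the centring at the mean, and the mean is
`κ n` up to a vanishing part of the standard deviation. The variance is at least of order `n`, at
most of order `n ^ (1 + ε)` for every `ε > 0`, and is asymptotically doubled when `n` is doubled. -/
theorem result : ∃ κ : ℝ, 0 < κ ∧
    (∀ x : ℝ, Tendsto (fun n : ℕ => distr (κ * n) n x) atTop
      (𝓝 ((gaussianReal 0 1).real (Set.Iic x)))) ∧
    (∀ x : ℝ, Tendsto (fun n : ℕ => distr (mean n) n x) atTop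
      (𝓝 ((gaussianReal 0 1).real (Set.Iic x)))) ∧
    (∀ k : ℕ, Tendsto (fun n : ℕ => moment (κ * n) n k) atTop
      (𝓝 (∫ x, x ^ k ∂(gaussianReal 0 1)))) ∧
    (∃ c : ℝ, 0 < c ∧ ∀ᶠ n : ℕ in atTop, c * n ≤ variance n) ∧
    (∀ ε : ℝ, 0 < ε → ∃ K : ℝ, ∀ n : ℕ, 0 < n → variance n ≤ K * (n : ℝ) ^ (1 + ε)) ∧
    Tendsto (fun n : ℕ => variance (2 * n) / variance n) atTop (𝓝 2) ∧
    Tendsto (fun n : ℕ => (mean n - κ * n) / √(variance n)) atTop (𝓝 0) :=
  Pool.Agent.H47.ML.main2

end Pool.Agent.Results.MP_b7689d_pr.AllMoments
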